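import Pool.Agent.Run7.h892.CG.Stm

/-!
# MP_176ace_nt, piece BID (helper333 for helper892)
-/

set_option autoImplicit false

namespace Pool.Agent.Run7.h333.CG

open NumberField Pool.Agent.Run7.h892.CG

theorem t_BID : S_BID := by
  classical
  intro K _ _ p T Z α α' P hp hZ hP hα hα' hsum hprod hTZ
  have hp0 : ((p : ℤ) : 𝓞 K) ≠ 0 := by exact_mod_cast hp
  have hZ0 : ((Z : ℤ) : 𝓞 K) ≠ 0 := by exact_mod_cast hZ
  have hP0 : P ≠ ⊥ := by
    intro h
    rw [h] at hP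
    have h1 : Ideal.span {((p : ℤ) : 𝓞 K)} = ⊥ := by
      rw [← hP]
      simp [pow_two]
    exact hp0 (Ideal.span_singleton_eq_bot.mp h1)
  obtain ⟨A, hA⟩ := Ideal.dvd_iff_le.mpr ((Ideal.span_singleton_le_iff_mem P).mpr hα)
  obtain ⟨A', hA'⟩ := Ideal.dvd_iff_le.mpr ((Ideal.span_singleton_le_iff_mem P).mpr hα')
  -- the product
  have h2 : Ideal.span {α} * Ideal.span {α'} =
      Ideal.span {((p : ℤ) : 𝓞 K)} * Ideal.span {((Z : ℤ) : 𝓞 K)} ^ 2 := by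
    rw [Ideal.span_singleton_mul_span_singleton, hprod, Ideal.span_singleton_neg,
      Ideal.span_singleton_pow, Ideal.span_singleton_mul_span_singleton]
  have h3 : A * A' = Ideal.span {((Z : ℤ) : 𝓞 K)} ^ 2 := by
    rw [hA, hA', ← hP] at h2
    have h4 : P ^ 2 * (A * A') = P ^ 2 * Ideal.span {((Z : ℤ) : 𝓞 K)} ^ 2 := by
      rw [← h2]
      ring
    exact mul_left_cancel₀ (pow_ne_zero 2 hP0) h4
  -- coprime
  have hαA : α ∈ A := by
    have h5 : α ∈ P * A := by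
      rw [← hA]
      exact Ideal.mem_span_singleton_self α
    exact Ideal.mul_le_right h5
  have hαA' : α' ∈ A' := by
    have h5 : α' ∈ P * A' := by
      rw [← hA']
      exact Ideal.mem_span_singleton_self α'
    exact Ideal.mul_le_right h5
  have hcop : IsCoprime A A' := by
    rw [Ideal.isCoprime_iff_sup_eq, Ideal.eq_top_iff_one]
    have hT : ((T : ℤ) : 𝓞 K) ∈ A ⊔ A' := by
      rw [← hsum]
      exact Ideal.add_mem _ ((le_sup_left : A ≤ A ⊔ A') hαA) ((le_sup_right : A' ≤ A ⊔ A') hαA')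
    have hZZ : (((Z : ℤ) : 𝓞 K)) ^ 2 ∈ A ⊔ A' := by
      have h6 : (((Z : ℤ) : 𝓞 K)) ^ 2 ∈ A * A' := by
        rw [h3]
        exact Ideal.pow_mem_pow (Ideal.mem_span_singleton_self _) 2
      exact (le_sup_left : A ≤ A ⊔ A') (Ideal.mul_le_left h6)
    have h7 : IsCoprime T (Z ^ 2) := hTZ.pow_right
    obtain ⟨u, v, huv⟩ := h7
    have h8 : (1 : 𝓞 K) = ((u : ℤ) : 𝓞 K) * ((T : ℤ) : 𝓞 K) + ((v : ℤ) : 𝓞 K) * ((Z : ℤ) : 𝓞 K) ^ 2 := by
      have h9 := congrArg (fun n : ℤ => ((n : ℤ) : 𝓞 K)) huv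
      push_cast at h9
      exact h9.symm
    rw [h8]
    exact Ideal.add_mem _ (Ideal.mul_mem_left _ _ hT) (Ideal.mul_mem_left _ _ hZZ)
  obtain ⟨B, hB⟩ := exists_eq_pow_of_mul_eq_pow_of_coprime hcop h3
  refine ⟨B, ?_, ?_⟩
  · intro h
    have hZZ : Ideal.span {((Z : ℤ) : 𝓞 K)} ^ 2 = ⊥ := by
      rw [← h3, hB, h]
      simp [pow_two]
    have h10 := pow_eq_zero_iff (two_ne_zero) |>.mp hZZ
    exact hZ0 (Ideal.span_singleton_eq_bot.mp h10)
  · rw [hA, hB]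

end Pool.Agent.Run7.h333.CG
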