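import Pool.Agent.Run7.h892.CG.Stm

/-!
# MP_176ace_nt, piece GRP (helper333 for helper892)
-/

set_option autoImplicit false

namespace Pool.Agent.Run7.h333.CG

open Pool.Agent.Run7.h892.CG

theorem t_GRP : S_GRP := by
  classical
  intro C _ m R r B hm hR c hc hcard
  have : NeZero m := ⟨hm.ne'⟩
  -- the relations
  let A : Finset (Fin R → Fin m) :=
    Finset.univ.filter (fun x => ∏ i, c i ^ (x i : ℕ) = 1)
  have hA : A.card ≤ B := by
    have h1 : Nat.card {x : Fin R → Fin m // ∏ i, c i ^ (x i : ℕ) = 1} = A.card := by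
      rw [Nat.card_eq_fintype_card, Fintype.card_subtype]
    omega
  have hR0 : 0 < R := by
    rcases Nat.eq_zero_or_pos R with h | h
    · subst h
      exfalso
      have h2 : (default : Fin 0 → Fin m) ∈ A := by
        rw [Finset.mem_filter]
        exact ⟨Finset.mem_univ _, Finset.prod_of_isEmpty _⟩
      have h3 : 0 < A.card := Finset.card_pos.mpr ⟨_, h2⟩
      omega
    · exact h
  have : Nonempty (Fin R) := ⟨⟨0, hR0⟩⟩
  let j : (Fin R → Fin m) → Fin R := fun x =>
    if h : ∃ k, x k ≠ 0 then h.choose else Classical.arbitrary _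
  have hj : ∀ x : Fin R → Fin m, x (j x) = 0 → ∀ k, x k = 0 := by
    intro x hx
    by_contra hcon
    push Not at hcon
    have h4 : j x = hcon.choose := by
      simp only [j]
      rw [dif_pos hcon]
    rw [h4] at hx
    exact hcon.choose_spec hx
  let J : Finset (Fin R) := A.image j
  have hJ : J.card ≤ B := Finset.card_image_le.trans hA
  have hcompl : r ≤ (Jᶜ : Finset (Fin R)).card := by
    rw [Finset.card_compl, Fintype.card_fin]
    omega
  obtain ⟨T, hTJ, hT⟩ := Finset.exists_subset_card_eq hcompl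
  let e : Fin r → Fin R := fun i => T.orderEmbOfFin hT i
  have he : Function.Injective e := (T.orderEmbOfFin hT).injective
  have heJ : ∀ i, e i ∉ J := fun i => by
    have h5 := hTJ (Finset.orderEmbOfFin_mem T hT i)
    exact Finset.mem_compl.mp h5
  have hmul : ∀ v w : Fin r → ZMod m,
      ∏ i, c (e i) ^ ((v + w) i).val =
        (∏ i, c (e i) ^ (v i).val) * ∏ i, c (e i) ^ (w i).val := by
    intro v w
    rw [← Finset.prod_mul_distrib]
    refine Finset.prod_congr rfl fun i _ => ?_
    rw [Pi.add_apply, ZMod.val_add, ← pow_add]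
    exact (pow_eq_pow_mod _ (hc (e i))).symm
  let f : Multiplicative (Fin r → ZMod m) →* C :=
    { toFun := fun v => ∏ i, c (e i) ^ ((Multiplicative.toAdd v) i).val
      map_one' := by simp
      map_mul' := fun v w => hmul _ _ }
  refine ⟨f, ?_⟩
  rw [injective_iff_map_eq_one]
  intro v hv
  have hv' : ∏ i, c (e i) ^ ((Multiplicative.toAdd v) i).val = 1 := hv
  let x : Fin R → Fin m := Function.extend e
    (fun i => (⟨((Multiplicative.toAdd v) i).val, ZMod.val_lt _⟩ : Fin m)) (fun _ => 0)
  have hxe : ∀ i, x (e i) = ⟨((Multiplicative.toAdd v) i).val, ZMod.val_lt _⟩ := fun i => by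
    simp only [x]
    rw [he.extend_apply]
  have hx0 : ∀ k, k ∉ Set.range e → x k = 0 := fun k hk => by
    simp only [x]
    rw [Function.extend_apply' _ _ _ (fun ⟨a, ha⟩ => hk ⟨a, ha⟩)]
  have hprod : ∏ k, c k ^ (x k : ℕ) = 1 := by
    rw [← hv']
    symm
    refine Fintype.prod_of_injective e he _ _ ?_ ?_
    · intro k hk
      rw [hx0 k hk]
      simp
    · intro i
      rw [hxe]
  have hxA : x ∈ A := by simp [A, hprod]
  have hjx : j x ∈ J := Finset.mem_image_of_mem _ hxA
  have hxj : x (j x) = 0 := hx0 _ (fun ⟨a, ha⟩ => heJ a (ha ▸ hjx))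
  have hall := hj x hxj
  have hv0 : Multiplicative.toAdd v = 0 := by
    funext i
    have h6 := hall (e i)
    rw [hxe] at h6
    have h7 : ((Multiplicative.toAdd v) i).val = 0 := by
      have h8 := congrArg Fin.val h6
      simpa using h8
    exact (ZMod.val_eq_zero _).mp h7
  exact hv0

end Pool.Agent.Run7.h333.CG
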